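import Mathlib
import Pool.Agent.V1172.PW.GapsCount
import Pool.Agent.V1172.PW.Eng2

/-!
# Oppermann's conjecture for all integers in shrinking residue classes

Let `l` be a prime number and `s > 0`. For all `l`-adic integers `a` outside of a set of Hausdorff dimension at most
`(1/5) / s` (`ℤ_l` has dimension one) and all large `T`: for ALL integers `2 ≤ n ≤ T` with `|n - a|_l ≤ T^{-s}`, that is, in the
residue class of `a` modulo the least power `l^f ≥ T^s`, both intervals of Oppermann, `(n² - n, n²)` and `(n², n² + n)`, contain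
primes. So for every `s > 1/5`, for almost every `a`, Oppermann's conjecture (and so the conjecture of Legendre) holds for all of
the about `T^{1 - s}` integers up to `T` in this class.

What is used is the theorem of Heath-Brown (The differences between consecutive primes V, IMRN 2021), `HeathBrown`: the sum of
the gaps `p_{k+1} - p_k ≥ √p_k` with `p_k ≤ x` is `O(x^{3/5 + ε})`; we state it, by partial summation, as the convergence of the
series of `(p_{k+1} - p_k) p_k^{-s}` over these gaps for `s > 3/5`.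
-/

set_option autoImplicit false

namespace Pool.Agent.Results.MP_bf4c7f_nt.NumbersInResidueClasses

/-- the primes `p 0 = 2, p 1 = 3, …` -/
noncomputable def p (k : ℕ) : ℕ := Nat.nth Nat.Prime k

/-- Heath-Brown's theorem: the series of `(p_{k+1} - p_k) p_k^{-s}` over the gaps with `p_{k+1} - p_k ≥ √p_k` converges for
`s > 3/5` -/
def HeathBrown : Prop := ∀ s : ℝ, 3 / 5 < s →
  Summable (Set.indicator {k : ℕ | Real.sqrt (p k) ≤ ((p (k + 1) - p k : ℕ) : ℝ)}
    fun k => ((p (k + 1) - p k : ℕ) : ℝ) * (p k : ℝ) ^ (-s))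

/-- both intervals of Oppermann contain primes -/
def Oppermann (n : ℕ) : Prop :=
  (∃ q : ℕ, q.Prime ∧ n ^ 2 - n < q ∧ q < n ^ 2) ∧ ∃ q : ℕ, q.Prime ∧ n ^ 2 < q ∧ q < n ^ 2 + n

/-- the large gaps -/
def B : Set ℕ := {k : ℕ | Real.sqrt (p k) ≤ ((p (k + 1) - p k : ℕ) : ℝ)}

/-- one of the two kinds of intervals -/
theorem side (hHB : HeathBrown) {f : ℕ → ℕ} (h2 : ∀ n, 2 ≤ n → 2 ≤ f n) (hf : ∀ n, f n ≤ n ^ 2)
    (hdis : ∀ n n', 2 ≤ n → n < n' → f n + n ≤ f n') (l : ℕ) [Fact l.Prime] {s : ℝ} (hs : 0 < s) :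
    ∃ Z : Set ℤ_[l], dimH Z ≤ ENNReal.ofReal (1 / 5 / s) ∧
      ∀ a : ℤ_[l], a ∉ Z → ∃ T₀ : ℝ, ∀ T : ℝ, T₀ ≤ T → ∀ n : ℕ, 2 ≤ n → (n : ℝ) ≤ T →
        ‖(n : ℤ_[l]) - a‖ ≤ T ^ (-s) → ∃ q : ℕ, q.Prime ∧ f n < q ∧ q < f n + n := by
  set E : Set ℕ := {n | 2 ≤ n ∧ ∀ r : ℕ, r.Prime → ¬ (f n < r ∧ r < f n + n)} with hE
  obtain ⟨Z, h1, h3⟩ := Pool.Agent.V1172.PW.objs l (P := ℕ) (fun n => (n : ℤ)) (ι := Unit) (fun _ => E) (s := 1 / 5)
    (by norm_num)
    (fun _ ε hε => by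
      obtain ⟨C, hC⟩ := Pool.Agent.V1172.PW.gaps_count (q := 0) (B := B) (σ := 3 / 5) (γ := 1) (c := 1) one_pos
        (fun s hs => by
          have := hHB s hs
          simpa [B, Pool.Agent.H274.Gaps.gap, Pool.Agent.H274.Gaps.p, p] using this)
        (f := f) (w := fun n => n) (E := E) (by norm_num) (by norm_num) (fun n hn => h2 n hn.1)
        (fun n _ => (hf n).trans (by nlinarith)) (fun n _ => by simp) (fun n hn => hn.2)
        (fun n hn n' _ h => hdis n n' hn.1 h)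
        (fun n hn => by
          have h4 := Pool.Agent.H274.Gaps.w_le_gap (h2 n hn.1) hn.2
          have h5 := Pool.Agent.H274.Gaps.p_idx_le (h2 n hn.1)
          change Real.sqrt (p (Pool.Agent.H274.Gaps.idx (f n))) ≤
            (Pool.Agent.H274.Gaps.gap (Pool.Agent.H274.Gaps.idx (f n)) : ℝ)
          have h6 : Real.sqrt (p (Pool.Agent.H274.Gaps.idx (f n))) ≤ n := by
            rw [Real.sqrt_le_left (Nat.cast_nonneg n)]
            exact_mod_cast h5.trans (hf n)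
          exact h6.trans (by exact_mod_cast h4)) hε
      have e1 : 2 * (3 / 5 : ℝ) - (((0 : ℕ) : ℝ) + 1) * 1 + ε = 1 / 5 + ε := by norm_num
      rw [e1] at hC
      refine ⟨C, fun X hX => ?_⟩
      have e : {t : ℕ | t ∈ E ∧ |(((t : ℤ)) : ℝ)| ≤ X} = {n | n ∈ E ∧ (n : ℝ) ≤ X} := by
        ext v
        refine and_congr_right fun _ => ?_
        rw [Int.cast_natCast, Nat.abs_cast]
      rw [e]
      exact hC X hX) hs
  refine ⟨Z, h1, fun a ha => ?_⟩
  obtain ⟨T₀, hT⟩ := h3 a ha ()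
  refine ⟨T₀, fun T hT1 n hn hnT hna => ?_⟩
  by_contra hcon
  push Not at hcon
  refine hT T hT1 n ?_ ?_ ⟨hn, fun r hr h => absurd h.2 (not_lt.2 (hcon r hr h.1))⟩
  · rw [Int.cast_natCast, Nat.abs_cast]
    exact hnT
  · rw [Int.cast_natCast]
    exact hna

/-- **Theorem.** Let `l` be a prime and `s > 0`. For all `l`-adic integers `a` outside of a set of Hausdorff dimension at most
`(1/5) / s` and all large `T`, Oppermann's conjecture holds for ALL `2 ≤ n ≤ T` with `|n - a|_l ≤ T^{-s}`. -/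
theorem result (hHB : HeathBrown) (l : ℕ) [Fact l.Prime] (s : ℝ) (hs : 0 < s) :
    ∃ Z : Set ℤ_[l], dimH Z ≤ ENNReal.ofReal (1 / 5 / s) ∧ ∀ a : ℤ_[l], a ∉ Z →
      ∃ T₀ : ℝ, ∀ T : ℝ, T₀ ≤ T → ∀ n : ℕ, 2 ≤ n → (n : ℝ) ≤ T → ‖(n : ℤ_[l]) - a‖ ≤ T ^ (-s) → Oppermann n := by
  obtain ⟨Z, hZ1, hZ2⟩ := side hHB (f := fun n => n ^ 2) (fun n hn => by nlinarith) (fun n => le_rfl)
    (fun n n' hn h => by nlinarith) l hs
  obtain ⟨Z', hZ'1, hZ'2⟩ := side hHB (f := fun n => n ^ 2 - n)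
    (fun n hn => by
      have : n + 2 ≤ n ^ 2 := by nlinarith
      omega)
    (fun n => Nat.sub_le _ _)
    (fun n n' hn h => by
      have h3 : n ≤ n ^ 2 := by nlinarith
      have h4 : n ^ 2 + n' ≤ n' ^ 2 := by nlinarith
      omega) l hs
  refine ⟨Z ∪ Z', ?_, fun a haZ => ?_⟩
  · rw [dimH_union]
    exact max_le hZ1 hZ'1
  · obtain ⟨m₁, hm₁⟩ := hZ2 a fun h => haZ (Or.inl h)
    obtain ⟨m₂, hm₂⟩ := hZ'2 a fun h => haZ (Or.inr h)
    refine ⟨max m₁ m₂, fun T hT n hn hnT hna => ⟨?_, ?_⟩⟩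
    · obtain ⟨q, hq1, hq2, hq3⟩ := hm₂ T ((le_max_right _ _).trans hT) n hn hnT hna
      have h3 : n ≤ n ^ 2 := by nlinarith
      refine ⟨q, hq1, hq2, ?_⟩
      rwa [Nat.sub_add_cancel h3] at hq3
    · exact hm₁ T ((le_max_left _ _).trans hT) n hn hnT hna

end Pool.Agent.Results.MP_bf4c7f_nt.NumbersInResidueClasses
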