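import Mathlib
import Pool.Agent.H274.Gaps

/-!
# Oppermann's conjecture for all integers in windows

Let `1 ≤ u_0, u_1, …` be reals with `∑ u_m^{-t} < ∞` for all `t > τ` (`τ = 0` for geometric sequences, `τ = 1/d` for
`u_m = m^d`), and `θ < 1`. For all `a > 0` outside of a set of Hausdorff dimension at most `(1/5 + τ) / (1 - θ)`, and for almost
all `a` if `θ + τ < 4/5`: for all large `m` and ALL integers `n` with `|n - a u_m| ≤ u_m^θ` both intervals of Oppermann,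
`(n² - n, n²)` and `(n², n² + n)`, contain primes.

For instance, for almost all `a > 0`: Oppermann's conjecture (and so the conjecture of Legendre) holds for all integers `n` in the
windows `|n - a b^m| ≤ b^{0.79 m}`, and for the integers next to `a m^d`, for every `d > 5/4` and large `m`.

What is used is the theorem of Heath-Brown (The differences between consecutive primes V, IMRN 2021), `HeathBrown`: the sum of
the gaps `p_{k+1} - p_k ≥ √p_k` with `p_k ≤ x` is `O(x^{3/5 + ε})`; we state it, by partial summation, as the convergence of the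
series of `(p_{k+1} - p_k) p_k^{-s}` over these gaps for `s > 3/5`.

The proof: if an interval of Oppermann for `n` has no primes it is in a gap of length at least `n`; the intervals are disjoint,
so that the sum of these `n` with `n² ≤ x` is `O(x^{3/5 + ε})`, and there are `O(N^{1/5 + ε})` of them up to `N`. The `a` for
which these are in infinitely many windows are covered by `Pool.Agent.Y854.GM.windows`.
-/

set_option autoImplicit false

namespace Pool.Agent.Results.MP_bf4c7f_nt.OppermannInWindows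

open Filter MeasureTheory

/-- the primes `p 0 = 2, p 1 = 3, …` -/
noncomputable def p (k : ℕ) : ℕ := Nat.nth Nat.Prime k

/-- Heath-Brown's theorem: the series of `(p_{k+1} - p_k) p_k^{-s}` over the gaps with `p_{k+1} - p_k ≥ √p_k` converges for
`s > 3/5` -/
def HeathBrown : Prop := ∀ s : ℝ, 3 / 5 < s →
  Summable (Set.indicator {k : ℕ | Real.sqrt (p k) ≤ ((p (k + 1) - p k : ℕ) : ℝ)}
    fun k => ((p (k + 1) - p k : ℕ) : ℝ) * (p k : ℝ) ^ (-s))

/-- both intervals of Oppermann contain primes -/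
def Oppermann (n : ℕ) : Prop :=
  (∃ q : ℕ, q.Prime ∧ n ^ 2 - n < q ∧ q < n ^ 2) ∧ ∃ q : ℕ, q.Prime ∧ n ^ 2 < q ∧ q < n ^ 2 + n

/-- the large gaps -/
def B : Set ℕ := {k : ℕ | Real.sqrt (p k) ≤ ((p (k + 1) - p k : ℕ) : ℝ)}

/-- one of the two kinds of intervals -/
theorem side (hHB : HeathBrown) {f : ℕ → ℕ} (h2 : ∀ n, 2 ≤ n → 2 ≤ f n) (hf : ∀ n, f n ≤ n ^ 2)
    (hdis : ∀ n n', 2 ≤ n → n < n' → f n + n ≤ f n') {u : ℕ → ℝ} {τ θ : ℝ} (hu : ∀ m, 1 ≤ u m) (hτ : 0 ≤ τ)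
    (hgrow : ∀ t : ℝ, τ < t → Summable fun m : ℕ => u m ^ (-t)) (hθ : θ < 1) :
    ∃ Z : Set ℝ, dimH Z ≤ ENNReal.ofReal ((1 / 5 + τ) / (1 - θ)) ∧
      ∀ a : ℝ, 0 < a → a ∉ Z → ∃ m₀ : ℕ, ∀ m : ℕ, m₀ ≤ m → ∀ n : ℕ, 2 ≤ n → |(n : ℝ) - a * u m| ≤ u m ^ θ →
        ∃ q : ℕ, q.Prime ∧ f n < q ∧ q < f n + n := by
  set E : Set ℕ := {n | 2 ≤ n ∧ ∀ r : ℕ, r.Prime → ¬ (f n < r ∧ r < f n + n)} with hE
  obtain ⟨Z, h1, h3⟩ := Pool.Agent.H274.Gaps.windows (q := 0) (B := B) (σ := 3 / 5) (γ := 1) (c := 1) one_pos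
    (fun s hs => by
      have := hHB s hs
      simpa [B, Pool.Agent.H274.Gaps.gap, Pool.Agent.H274.Gaps.p, p] using this)
    (f := f) (w := fun n => n) (E := E) (by norm_num) (by norm_num) (fun n hn => h2 n hn.1)
    (fun n _ => (hf n).trans (by nlinarith)) (fun n _ => by simp) (fun n hn => hn.2)
    (fun n hn n' _ h => hdis n n' hn.1 h)
    (fun n hn => by
      have h4 := Pool.Agent.H274.Gaps.w_le_gap (h2 n hn.1) hn.2
      have h5 := Pool.Agent.H274.Gaps.p_idx_le (h2 n hn.1)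
      change Real.sqrt (p (Pool.Agent.H274.Gaps.idx (f n))) ≤ (Pool.Agent.H274.Gaps.gap (Pool.Agent.H274.Gaps.idx (f n)) : ℝ)
      have h6 : Real.sqrt (p (Pool.Agent.H274.Gaps.idx (f n))) ≤ n := by
        rw [Real.sqrt_le_left (Nat.cast_nonneg n)]
        exact_mod_cast h5.trans (hf n)
      exact h6.trans (by exact_mod_cast h4))
    hu hτ hgrow hθ
  refine ⟨Z, h1.trans (le_of_eq ?_), fun a ha haZ => ?_⟩
  · congr 2
    norm_num
  · obtain ⟨m₀, hm₀⟩ := h3 a ha haZ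
    refine ⟨m₀, fun m hm n hn hnm => ?_⟩
    by_contra hcon
    push Not at hcon
    exact absurd hnm (not_le.2 (hm₀ m hm n ⟨hn, fun r hr h => absurd h.2 (not_lt.2 (hcon r hr h.1))⟩))

/-- **Theorem.** Let `1 ≤ u_m`, `∑_m u_m^{-t} < ∞` for all `t > τ`, `θ < 1`. (1) For all `a > 0` outside of a set of dimension
at most `(1/5 + τ) / (1 - θ)`, Oppermann's conjecture holds for all integers in the windows around `a u_m`, for all large `m`.
(2) If `θ + τ < 4/5` then this holds for almost all `a > 0`. -/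
theorem result (hHB : HeathBrown) (u : ℕ → ℝ) (τ θ : ℝ) (hu : ∀ m, 1 ≤ u m) (hτ : 0 ≤ τ)
    (hgrow : ∀ t : ℝ, τ < t → Summable fun m : ℕ => u m ^ (-t)) (hθ : θ < 1) :
    (∃ Z : Set ℝ, dimH Z ≤ ENNReal.ofReal ((1 / 5 + τ) / (1 - θ)) ∧ ∀ a : ℝ, 0 < a → a ∉ Z →
      ∃ m₀ : ℕ, ∀ m : ℕ, m₀ ≤ m → ∀ n : ℕ, 2 ≤ n → |(n : ℝ) - a * u m| ≤ u m ^ θ → Oppermann n) ∧
    (θ + τ < 4 / 5 → ∀ᵐ a : ℝ, 0 < a →
      ∃ m₀ : ℕ, ∀ m : ℕ, m₀ ≤ m → ∀ n : ℕ, 2 ≤ n → |(n : ℝ) - a * u m| ≤ u m ^ θ → Oppermann n) := by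
  have h1 : ∃ Z : Set ℝ, dimH Z ≤ ENNReal.ofReal ((1 / 5 + τ) / (1 - θ)) ∧ ∀ a : ℝ, 0 < a → a ∉ Z →
      ∃ m₀ : ℕ, ∀ m : ℕ, m₀ ≤ m → ∀ n : ℕ, 2 ≤ n → |(n : ℝ) - a * u m| ≤ u m ^ θ → Oppermann n := by
    obtain ⟨Z, hZ1, hZ2⟩ := side hHB (f := fun n => n ^ 2) (fun n hn => by nlinarith) (fun n => le_rfl)
      (fun n n' hn h => by nlinarith) hu hτ hgrow hθ
    obtain ⟨Z', hZ'1, hZ'2⟩ := side hHB (f := fun n => n ^ 2 - n)
      (fun n hn => by
        have : n + 2 ≤ n ^ 2 := by nlinarith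
        omega)
      (fun n => Nat.sub_le _ _)
      (fun n n' hn h => by
        have h3 : n ≤ n ^ 2 := by nlinarith
        have h4 : n ^ 2 + n' ≤ n' ^ 2 := by nlinarith
        omega) hu hτ hgrow hθ
    refine ⟨Z ∪ Z', ?_, fun a ha haZ => ?_⟩
    · rw [dimH_union]
      exact max_le hZ1 hZ'1
    · obtain ⟨m₁, hm₁⟩ := hZ2 a ha fun h => haZ (Or.inl h)
      obtain ⟨m₂, hm₂⟩ := hZ'2 a ha fun h => haZ (Or.inr h)
      refine ⟨max m₁ m₂, fun m hm n hn hnm => ⟨?_, ?_⟩⟩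
      · obtain ⟨q, hq1, hq2, hq3⟩ := hm₂ m ((le_max_right _ _).trans hm) n hn hnm
        have h3 : n ≤ n ^ 2 := by nlinarith
        refine ⟨q, hq1, hq2, ?_⟩
        rwa [Nat.sub_add_cancel h3] at hq3
      · exact hm₁ m ((le_max_left _ _).trans hm) n hn hnm
  refine ⟨h1, fun hθτ => ?_⟩
  obtain ⟨Z, hZ1, hZ2⟩ := h1
  have hnull : volume Z = 0 := by
    rw [← hausdorffMeasure_real]
    refine hausdorffMeasure_of_dimH_lt (d := 1) (hZ1.trans_lt ?_)
    have g1 : (1 / 5 + τ) / (1 - θ) < 1 := by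
      rw [div_lt_one (by linarith)]
      linarith
    simpa using (ENNReal.ofReal_lt_one).2 g1
  filter_upwards [compl_mem_ae_iff.2 hnull] with a ha ha0
  exact hZ2 a ha0 ha

end Pool.Agent.Results.MP_bf4c7f_nt.OppermannInWindows
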